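import Pool.Agent.W945.Pw.Stm

/-!
# PW-PROD: coefficients of a product of functions of disjoint sets of variables
-/

namespace Pool.Agent.W605.Pw.PROD

open Pool.Agent.W945.Pw Finset

/-- Swap the parts of `x` and `y` outside `P`. -/
def swapE {n : ℕ} (P : Finset (Fin n)) :
    ((Fin n → Bool) × (Fin n → Bool)) ≃ ((Fin n → Bool) × (Fin n → Bool)) where
  toFun p := (fun i => if i ∈ P then p.1 i else p.2 i, fun i => if i ∈ P then p.2 i else p.1 i)
  invFun p := (fun i => if i ∈ P then p.1 i else p.2 i, fun i => if i ∈ P then p.2 i else p.1 i)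
  left_inv p := by
    apply Prod.ext
    · funext i
      by_cases h : i ∈ P <;> simp [h]
    · funext i
      by_cases h : i ∈ P <;> simp [h]
  right_inv p := by
    apply Prod.ext
    · funext i
      by_cases h : i ∈ P <;> simp [h]
    · funext i
      by_cases h : i ∈ P <;> simp [h]

theorem sum_mul_sum_dep {n : ℕ} (P Q : Finset (Fin n)) (h g : (Fin n → Bool) → ℝ)
    (hPQ : Disjoint P Q) (hh : Dep P h) (hg : Dep Q g) :
    (∑ x, h x) * (∑ y, g y) = (Fintype.card (Fin n → Bool) : ℝ) * ∑ x, h x * g x := by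
  rw [Finset.sum_mul_sum, ← Finset.sum_product']
  rw [Finset.univ_product_univ]
  have h1 : ∀ p : (Fin n → Bool) × (Fin n → Bool),
      h p.1 * g p.2 = h (swapE P p).1 * g (swapE P p).1 := by
    intro p
    have e1 : h p.1 = h (swapE P p).1 := by
      apply hh
      intro v hv
      simp [swapE, hv]
    have e2 : g p.2 = g (swapE P p).1 := by
      apply hg
      intro v hv
      have : v ∉ P := fun hvP => (Finset.disjoint_left.mp hPQ hvP) hv
      simp [swapE, this]
    rw [e1, e2]
  rw [Finset.sum_congr rfl (fun p _ => h1 p)]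
  rw [Equiv.sum_comp (swapE P) (fun p => h p.1 * g p.1)]
  rw [Fintype.sum_prod_type]
  simp only [Finset.sum_const, Finset.card_univ, nsmul_eq_mul]
  rw [Finset.mul_sum]

theorem dep_mul_chi {n : ℕ} (P β : Finset (Fin n)) (A : (Fin n → Bool) → ℝ) (hA : Dep P A)
    (hβ : β ⊆ P) : Dep P (fun x => A x * chi β x) := by
  intro x y hxy
  have h1 : A x = A y := hA x y hxy
  have h2 : chi β x = chi β y := by
    unfold chi
    apply Finset.prod_congr rfl
    intro i hi
    rw [hxy i (hβ hi)]
  show A x * chi β x = A y * chi β y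
  rw [h1, h2]

theorem main : PROD.Stm := by
  intro n P Q A B hPQ hA hB β γ hβ hγ
  have hd : Disjoint β γ := Finset.disjoint_of_subset_left hβ (Finset.disjoint_of_subset_right hγ hPQ)
  have key := sum_mul_sum_dep P Q (fun x => A x * chi β x) (fun x => B x * chi γ x) hPQ
    (dep_mul_chi P β A hA hβ) (dep_mul_chi Q γ B hB hγ)
  have hc : (Fintype.card (Fin n → Bool) : ℝ) ≠ 0 := by
    have : 0 < Fintype.card (Fin n → Bool) := Fintype.card_pos
    positivity
  unfold hat avg
  have hs : ∀ x, A x * B x * chi (β ∪ γ) x = (A x * chi β x) * (B x * chi γ x) := by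
    intro x
    unfold chi
    rw [Finset.prod_union hd]
    ring
  rw [Finset.sum_congr rfl (fun x _ => hs x)]
  rw [div_mul_div_comm, key]
  rw [mul_div_mul_left _ _ hc]

end Pool.Agent.W605.Pw.PROD
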